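import Pool.Agent.W955.Mov.Main

/-!
# The movable cone conjecture for finite etale quotients of products

For a smooth projective `X` with `K_X ≡ 0` let `V = N^1(X)`, `L` the classes of divisors, `M` the
classes of movable divisors, `F` the classes of effective divisors, `Γ` the image of `Bir(X)`: a
`DivisorData`, and `Conj` is the movable cone conjecture for `X`. Products (`IsProd`) and finite
etale quotients (`IsQuot`) are described by divisor classes only; that the effective movable cone
of a product is the product of the effective movable cones, and that the effective movable cone of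
a quotient is the invariant part, is proved. If the conjecture holds for the factors, then it holds
for the quotient of the product.
-/

set_option autoImplicit false

namespace Pool.Agent.Results.MP_e39d36_ag.BeauvilleBogomolovMovable

open Pool.Agent.W539.Cone Pool.Agent.W955.Mov

theorem result {ι : Type} [Fintype ι] {V : ι → Type} [∀ i, NormedAddCommGroup (V i)]
    [∀ i, NormedSpace ℝ (V i)] [∀ i, FiniteDimensional ℝ (V i)]
    (S : ∀ i, DivisorData (V i)) (hS : ∀ i, (S i).Conj) (R : DivisorData (∀ i, V i))
    (hR : Pool.Agent.W955.Mov.IsProd S R) (G : Subgroup ((∀ i, V i) ≃ₗ[ℝ] (∀ i, V i)))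
    (Q : DivisorData (fixed G)) (hQ : Pool.Agent.W955.Mov.IsQuot R G Q) : Q.Conj :=
  Pool.Agent.W955.Mov.prod_quot S hS R hR G Q hQ

end Pool.Agent.Results.MP_e39d36_ag.BeauvilleBogomolovMovable
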